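import Pool.Agent.H65.HX.SStm

/-!
# Project HX, scheme side (helper25): basic facts
-/

set_option autoImplicit false
open Classical Finset

namespace Pool.Agent.H25.HX

open Pool.Agent.H39.HW (sm Av ln blk lab)
open Pool.Agent.H65.HX Pool.Agent.H65.HX.Sc

/-- at least half of an interval (up to `H0`) lies in the second half of the pattern -/
theorem cnt (H0 y z : ℕ) (h0 : 1 ≤ H0) :
    z ≤ y + H0 + 2 * ((Finset.Ico y z).filter fun β => H0 ≤ β % (2 * H0)).card := by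
  set U := (Finset.Ico y z).filter fun β => H0 ≤ β % (2 * H0) with hU
  rcases Nat.lt_or_ge z (y + H0) with h | h
  · omega
  have h1 : ((Finset.Ico y (z - H0)).filter fun β => β % (2 * H0) < H0).card ≤ U.card := by
    apply Finset.card_le_card_of_injOn (fun β => β + H0)
    · intro β hβ
      have hβ' := Finset.mem_filter.mp (Finset.mem_coe.mp hβ)
      have h2 := Finset.mem_Ico.mp hβ'.1
      have h3 := hβ'.2
      rw [Finset.mem_coe, hU, Finset.mem_filter, Finset.mem_Ico]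
      refine ⟨by show y ≤ β + H0 ∧ β + H0 < z; omega, ?_⟩
      show H0 ≤ (β + H0) % (2 * H0)
      rw [Nat.add_mod, Nat.mod_eq_of_lt (by omega : H0 < 2 * H0),
        Nat.mod_eq_of_lt (by omega : β % (2 * H0) + H0 < 2 * H0)]
      omega
    · intro β _ γ _ h
      have h' : β + H0 = γ + H0 := h
      omega
  have h2 : ((Finset.Ico y (z - H0)).filter fun β => ¬ β % (2 * H0) < H0).card ≤ U.card := by
    apply Finset.card_le_card
    intro β hβ
    rw [Finset.mem_filter, Finset.mem_Ico] at hβ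
    rw [hU, Finset.mem_filter, Finset.mem_Ico]
    omega
  have h3 := Finset.card_filter_add_card_filter_not (s := Finset.Ico y (z - H0))
    (fun β => β % (2 * H0) < H0)
  rw [Nat.card_Ico] at h3
  omega

variable {x : Prm} (hx : Par x)

include hx

theorem Lge : (8 * 10 ^ 6 : ℝ) ≤ x.L := by
  have h1 := hx.h1
  have h2 : 8 * 10 ^ 6 ≤ x.L := by
    rw [hx.L1]
    nlinarith
  exact_mod_cast h2

theorem hge : (1000 : ℝ) ≤ x.h := by exact_mod_cast hx.h1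

theorem L_eq : x.L = 2 * (4 * x.h ^ 2 + 2 * x.h) := by rw [hx.L1]; ring

theorem v0pos : 0 < x.n0 * x.μ := by
  have h1 : (1 : ℝ) ≤ x.n0 := by exact_mod_cast hx.n2
  have h2 := hx.m0
  positivity

theorem v0le : x.n0 * x.μ ≤ 1 / 10 ^ 12 := by
  have h1 := hx.V1
  have h2 := Lge hx
  have h3 := hge hx
  have h4 := v0pos hx
  have h5 : 1 ≤ (x.L : ℝ) * x.h := by nlinarith
  have h6 : 10 ^ 12 * (x.n0 * x.μ) * 1 ≤ 10 ^ 12 * (x.n0 * x.μ) * ((x.L : ℝ) * x.h) :=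
    mul_le_mul_of_nonneg_left h5 (by positivity)
  rw [le_div_iff₀ (by positivity)]
  nlinarith

theorem eta_le : x.η ≤ 1 / 10 ^ 18 := by
  have h1 := hx.V2
  have h2 := v0le hx
  have : 10 ^ 6 * x.η ≤ 1 / 10 ^ 12 := h1.trans h2
  have h3 : x.η ≤ (1 / 10 ^ 12) / 10 ^ 6 := by
    rw [le_div_iff₀ (by positivity)]
    linarith
  refine h3.trans (le_of_eq (by norm_num))

theorem tm : 0 < x.θ * x.μ := mul_pos hx.t0 hx.m0

/-- `L μ` is tiny -/
theorem Lmu : 10 ^ 20 * ((x.L : ℝ) ^ 3) * (x.L * x.μ) ≤ x.η * x.θ := by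
  have h := hx.u1
  calc 10 ^ 20 * ((x.L : ℝ) ^ 3) * (x.L * x.μ) = 10 ^ 20 * (x.L : ℝ) ^ 4 * x.μ := by ring
    _ ≤ _ := h

theorem Lmu' : 10 ^ 20 * (x.L * x.μ) ≤ x.η * x.θ := by
  have h := Lmu hx
  have hL := Lge hx
  have h1 : (1 : ℝ) ≤ (x.L : ℝ) ^ 3 := one_le_pow₀ (by linarith)
  have h2 : 0 ≤ x.L * x.μ := by have := hx.m0; positivity
  nlinarith

theorem theta_le : x.θ ≤ 1 / 10 ^ 18 := hx.th.trans (eta_le hx)

/-- `10^20 L μ ≤ η` etc. -/
theorem Lmu_eta : 10 ^ 20 * (x.L * x.μ) ≤ x.η := by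
  have h1 := Lmu' hx
  have h2 := theta_le hx
  have h3 := hx.n1
  nlinarith

theorem B_eq : x.B = x.b0 + x.b1 := by
  show 2 * x.K + 2 * x.J + x.M = x.K + x.J + (x.K + x.J + x.M)
  omega

theorem b1_eq : x.b1 + x.K + x.J = x.B := by
  show x.K + x.J + x.M + x.K + x.J = 2 * x.K + 2 * x.J + x.M
  omega

theorem mem_R {a : ℕ} : a ∈ x.R ↔ x.K + 1 ≤ a ∧ a + x.K + 1 ≤ x.B := by
  have h1 := b1_eq hx
  have h2 := hx.J1
  unfold Prm.R
  rw [Finset.mem_Icc]
  omega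

theorem Kmu : 1 / 2 - x.η ≤ x.K * x.μ ∧ x.K * x.μ ≤ 1 / 2 + x.η := by
  have := abs_le.mp hx.k1
  constructor <;> linarith [this.1, this.2]

theorem Mmu : 1 - x.η ≤ x.M * x.μ ∧ x.M * x.μ ≤ 1 + x.η := by
  have := abs_le.mp hx.m1
  constructor <;> linarith [this.1, this.2]

theorem Jmu : 0 ≤ x.J * x.μ ∧ x.J * x.μ ≤ x.η :=
  ⟨mul_nonneg (Nat.cast_nonneg _) hx.m0.le, hx.j1⟩

theorem Bmu : 2 - 3 * x.η ≤ x.B * x.μ ∧ x.B * x.μ ≤ 2 + 5 * x.η := by
  have h1 := Kmu hx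
  have h2 := Mmu hx
  have h3 := Jmu hx
  have h4 : (x.B : ℝ) = 2 * x.K + 2 * x.J + x.M := by
    show ((2 * x.K + 2 * x.J + x.M : ℕ) : ℝ) = _
    push_cast; ring
  rw [h4]
  constructor <;> nlinarith [h1.1, h1.2, h2.1, h2.2, h3.1, h3.2]

theorem b0mu : 1 / 2 - x.η ≤ x.b0 * x.μ ∧ x.b0 * x.μ ≤ 1 / 2 + 2 * x.η := by
  have h1 := Kmu hx
  have h3 := Jmu hx
  have h4 : (x.b0 : ℝ) = x.K + x.J := by
    show ((x.K + x.J : ℕ) : ℝ) = _
    push_cast; ring
  rw [h4]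
  constructor <;> nlinarith [h1.1, h1.2, h3.1, h3.2]

/-- a row which is not rigid -/
theorem notR0 {a : ℕ} (ha : a ∈ x.R) (h : a ∉ x.R0) :
    2 * a + 2 * x.n0 < x.B ∨ x.B + 2 * x.n0 < 2 * a := by
  unfold Prm.R0 at h
  rw [Finset.mem_filter] at h
  by_contra hc
  apply h
  refine ⟨ha, ?_, ?_⟩ <;> omega

/-- rows in `YY` are far from the centre -/
theorem YY_far {a : ℕ} (h : a ∈ x.YY true ∨ a ∈ x.YY false) :
    19 / 100 ≤ |(a : ℝ) - x.B / 2| * x.μ := by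
  have h1 := Kmu hx
  have h2 := Bmu hx
  have he := eta_le hx
  have hm := hx.m0
  rcases h with h | h
  · have h3 : x.B ≤ a + 8 * x.K / 5 := by
      unfold Prm.YY at h
      simp only [if_true, Finset.mem_Icc] at h
      omega
    have h4 : 5 * x.B ≤ 5 * a + 8 * x.K := by omega
    have h5 : 5 * (x.B : ℝ) ≤ 5 * a + 8 * x.K := by exact_mod_cast h4
    have h6 := mul_le_mul_of_nonneg_right h5 hm.le
    have h7 : ((a : ℝ) - x.B / 2) * x.μ ≤ |(a : ℝ) - x.B / 2| * x.μ :=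
      mul_le_mul_of_nonneg_right (le_abs_self _) hm.le
    nlinarith [h1.1, h1.2, h2.1, h2.2]
  · have h3 : a ≤ 8 * x.K / 5 := by
      unfold Prm.YY at h
      simp only [Bool.false_eq_true, if_false, Finset.mem_Icc] at h
      omega
    have h4 : 5 * a ≤ 8 * x.K := by omega
    have h5 : 5 * (a : ℝ) ≤ 8 * x.K := by exact_mod_cast h4
    have h6 := mul_le_mul_of_nonneg_right h5 hm.le
    have h7 : -((a : ℝ) - x.B / 2) * x.μ ≤ |(a : ℝ) - x.B / 2| * x.μ :=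
      mul_le_mul_of_nonneg_right (neg_le_abs _) hm.le
    nlinarith [h1.1, h1.2, h2.1, h2.2]

end Pool.Agent.H25.HX
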