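import Pool.Agent.H25.HX.SBas

/-!
# Project HX, scheme side (helper25): parts VI, VJ, VN
-/

set_option autoImplicit false
open Classical Finset

namespace Pool.Agent.H25.HX

open Pool.Agent.H39.HW (sm Av ln blk lab)
open Pool.Agent.H65.HX Pool.Agent.H65.HX.Sc

/-- blocks of the hub in an interval -/
theorem hub_key (hM : S_MMD) (hC : S_CLD) {x : Prm} (hx : Par x) {a : ℕ} (ha : a ∈ x.R)
    (y z : ℕ) (hz : z ≤ x.B) (hadj : ∀ β, y ≤ β → β < z → ¬ x.adj a β)
    (hmid : a ∉ x.R0 → x.b0 ≤ y ∧ z ≤ x.b1) (Q : ℕ → Prop) [DecidablePred Q] (hQ : ∀ β, y ≤ β → β < z → Q β) :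
    z ≤ y + (4 * x.h ^ 2 + 2 * x.h) + 2 * (((x.Hb a).filter fun β => Q β).card + 1) := by
  obtain ⟨-, hM2⟩ := hM x hx
  obtain ⟨hmm, -, -, -⟩ := hM2 a ha
  have hsub := (hC x hx a ha).2.1
  have hL := L_eq hx
  have hh := hx.h1
  have hH0 : 1 ≤ 4 * x.h ^ 2 + 2 * x.h := by omega
  have h1 : ((Finset.Ico y z).filter fun β =>
        (4 * x.h ^ 2 + 2 * x.h) ≤ β % (2 * (4 * x.h ^ 2 + 2 * x.h))).card ≤
        ((x.Hb a).filter fun β => Q β).card + 1 := by
    have : ((Finset.Ico y z).filter fun β =>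
        (4 * x.h ^ 2 + 2 * x.h) ≤ β % (2 * (4 * x.h ^ 2 + 2 * x.h))) ⊆
        insert (sm x.B a a) ((x.Hb a).filter fun β => Q β) := by
      intro β hβ
      rw [Finset.mem_filter, Finset.mem_Ico] at hβ
      obtain ⟨⟨h1, h2⟩, h3⟩ := hβ
      rw [Finset.mem_insert]
      by_cases hs : β = sm x.B a a
      · exact Or.inl hs
      · right
        have hm : β ∈ x.mm a := (hmm β).mpr ⟨by omega, hadj β h1 h2, hs⟩
        rw [Finset.mem_filter]
        refine ⟨?_, hQ β h1 h2⟩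
        unfold Prm.Hb
        rw [Finset.mem_filter]
        refine ⟨hsub hm, hm, ?_, ?_⟩
        · rw [hL]; exact h3
        · intro h0
          have := hmid h0
          unfold Prm.mid
          rw [Finset.mem_Ico]
          omega
    exact (Finset.card_le_card this).trans (Finset.card_insert_le _ _)
  have h2 := cnt (4 * x.h ^ 2 + 2 * x.h) y z hH0
  omega

theorem hub_key' (hM : S_MMD) (hC : S_CLD) {x : Prm} (hx : Par x) {a : ℕ} (ha : a ∈ x.R)
    (y z : ℕ) (hz : z ≤ x.B) (hadj : ∀ β, y ≤ β → β < z → ¬ x.adj a β)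
    (hmid : a ∉ x.R0 → x.b0 ≤ y ∧ z ≤ x.b1) :
    z ≤ y + (4 * x.h ^ 2 + 2 * x.h) + 2 * ((x.Hb a).card + 1) := by
  refine (hub_key hM hC hx ha y z hz hadj hmid (fun _ => True) (fun _ _ _ => trivial)).trans ?_
  have : ∀ m n k : ℕ, m ≤ n → k + 2 * (m + 1) ≤ k + 2 * (n + 1) := by intro m n k h; omega
  exact this _ _ _ (Finset.card_filter_le _ _)

theorem halfL {x : Prm} (hx : Par x) : ((4 * x.h ^ 2 + 2 * x.h : ℕ) : ℝ) = x.L / 2 := by
  have h := L_eq hx
  have h' : (x.L : ℝ) = 2 * ((4 * x.h ^ 2 + 2 * x.h : ℕ) : ℝ) := by exact_mod_cast h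
  rw [h']; ring

/-- the size of the hub of a row which is not rigid -/
theorem hub_card (hM : S_MMD) (hC : S_CLD) (hZ : S_ZON) {x : Prm} (hx : Par x) {a : ℕ}
    (ha : a ∈ x.R) (h0 : a ∉ x.R0) :
    |(a : ℝ) - x.B / 2| * x.μ ≤
      6 * x.η + (x.L / 2 + 3) * x.μ + 2 * (((x.Hb a).card : ℝ) * x.μ) := by
  obtain ⟨-, -, -, -, -, hz⟩ := hZ x hx
  obtain ⟨hz1, hz2, -⟩ := hz a ha
  have hB := B_eq hx
  have hb1 := b1_eq hx
  have hR := (mem_R hx).mp ha
  have hKJ := hx.KJ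
  have hb0 : x.b0 = x.K + x.J := rfl
  have hm := hx.m0
  have e1 := halfL hx
  have e2 := Kmu hx
  have e3 := Bmu hx
  have e4 := b0mu hx
  have hBr : (x.B : ℝ) = x.b0 + x.b1 := by exact_mod_cast hB
  rcases notR0 hx ha h0 with h | h
  · obtain ⟨h1, -, h3, -⟩ := hz1 h
    have k := hub_key' hM hC hx ha (a + x.K + 1) x.b1 (by omega) (by
      intro β h1 h2 h3
      unfold Prm.adj at h3
      omega) (fun _ => ⟨by omega, le_rfl⟩)
    have k' : (x.b1 : ℝ) ≤ a + x.K + 1 + ((4 * x.h ^ 2 + 2 * x.h : ℕ) : ℝ) +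
        2 * (((x.Hb a).card : ℝ) + 1) := by exact_mod_cast k
    rw [e1] at k'
    have h4 : 2 * (a : ℝ) < x.B := by
      have : 2 * a < x.B := by omega
      exact_mod_cast this
    rw [abs_of_neg (by linarith)]
    have k2 := mul_le_mul_of_nonneg_right k' hm.le
    nlinarith [e2.1, e2.2, e3.1, e3.2, e4.1, e4.2]
  · obtain ⟨h1, -, h3, -⟩ := hz2 h
    have k := hub_key' hM hC hx ha x.b0 (a - x.K) (by omega) (by
      intro β h1 h2 h3
      unfold Prm.adj at h3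
      omega) (fun _ => ⟨le_rfl, by omega⟩)
    have k0 : a ≤ x.b0 + (4 * x.h ^ 2 + 2 * x.h) + 2 * ((x.Hb a).card + 1) + x.K := by omega
    have k' : (a : ℝ) ≤ x.b0 + ((4 * x.h ^ 2 + 2 * x.h : ℕ) : ℝ) +
        2 * (((x.Hb a).card : ℝ) + 1) + x.K := by exact_mod_cast k0
    rw [e1] at k'
    have h4 : (x.B : ℝ) < 2 * a := by
      have : x.B < 2 * a := by omega
      exact_mod_cast this
    rw [abs_of_pos (by linarith)]
    have k2 := mul_le_mul_of_nonneg_right k' hm.le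
    nlinarith [e2.1, e2.2, e3.1, e3.2, e4.1, e4.2]

theorem far_n0 {x : Prm} (hx : Par x) {a : ℕ} (ha : a ∈ x.R) (h0 : a ∉ x.R0) :
    x.n0 * x.μ ≤ |(a : ℝ) - x.B / 2| * x.μ := by
  apply mul_le_mul_of_nonneg_right _ hx.m0.le
  rcases notR0 hx ha h0 with h | h
  · have h1 : 2 * (a : ℝ) + 2 * x.n0 < x.B := by exact_mod_cast h
    have := neg_le_abs ((a : ℝ) - x.B / 2)
    linarith
  · have h1 : (x.B : ℝ) + 2 * x.n0 < 2 * a := by exact_mod_cast h
    have := le_abs_self ((a : ℝ) - x.B / 2)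
    linarith

/-- `h μ` is negligible -/
theorem hmu1 {x : Prm} (hx : Par x) : 5120 * (x.h * x.μ) ≤ 1 / 10 ^ 6 * (x.η * (x.θ / x.L)) := by
  have hL := Lge hx
  have hL0 : (0 : ℝ) < x.L := by linarith
  have h1 := Lmu hx
  have hh : (x.h : ℝ) ≤ x.L := by
    have : x.h ≤ x.L := by
      have := L_eq hx
      have := hx.h1
      nlinarith
    exact_mod_cast this
  have hm := hx.m0
  have h2 : 1 / 10 ^ 6 * (x.η * (x.θ / x.L)) = (1 / 10 ^ 6 * (x.η * x.θ)) / x.L := by ring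
  rw [h2, le_div_iff₀ hL0]
  have h3 : (1 : ℝ) ≤ (x.L : ℝ) := by linarith
  have h4 : (x.h : ℝ) * (x.L * x.μ) ≤ (x.L : ℝ) ^ 3 * (x.L * x.μ) := by
    apply mul_le_mul_of_nonneg_right _ (by positivity)
    calc (x.h : ℝ) ≤ x.L := hh
      _ = (x.L : ℝ) ^ 1 := (pow_one _).symm
      _ ≤ (x.L : ℝ) ^ 3 := pow_le_pow_right₀ h3 (by norm_num)
  have h5 : 0 < x.η * x.θ := mul_pos hx.n1 hx.t0
  nlinarith

/-- the two numerical inequalities for the hubs -/
theorem hub_num {x : Prm} (hx : Par x) {n c e : ℝ}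
    (h : 128 * (e * (x.L * x.h)) * (1 + 1 / 100) ≤ n * c)
    (he : x.η * x.θ / 10 ^ 3 ≤ e * (x.L * x.h)) :
    64 * ((2 * x.h : ℕ) : ℝ) * (e + 40 * x.μ) ≤ n * (c / x.L) := by
  have hL := Lge hx
  have hL0 : (0 : ℝ) < x.L := by linarith
  have h1 := hmu1 hx
  have h2 : n * (c / x.L) = (n * c) / x.L := by ring
  rw [h2, le_div_iff₀ hL0]
  push_cast
  have h3 : 5120 * (x.h * x.μ) * x.L ≤ 1 / 10 ^ 6 * (x.η * x.θ) := by
    have := mul_le_mul_of_nonneg_right h1 hL0.le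
    have e : 1 / 10 ^ 6 * (x.η * (x.θ / x.L)) * x.L = 1 / 10 ^ 6 * (x.η * x.θ) := by
      field_simp
    rw [e] at this
    exact this
  have h5 : 0 < x.η * x.θ := mul_pos hx.n1 hx.t0
  nlinarith

theorem lo_ge (hV : S_VF) {x : Prm} (hx : Par x) {φ : ℕ → ℕ → ℕ} (hφ : Ser x φ) {a : ℕ}
    (ha : a ∈ x.R) {β : ℕ} (hβ : β ∈ x.cls a) {d : ℝ} (hd : d ≤ x.dem a β) :
    1 / (200 * x.L) * d ≤ (x.dat φ).lo x.D a β := by
  have b1 := (hV x hx φ hφ a ha β hβ).2.2
  have b3 : (0 : ℝ) ≤ 1 / (200 * x.L) := by positivity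
  exact (mul_le_mul_of_nonneg_left hd b3).trans b1

theorem t_VI (hM : S_MMD) (hC : S_CLD) (hZ : S_ZON) (hV : S_VF) : S_VI := by
  intro x hx φ hφ s a ha h0
  have ha' : a ∈ x.R := ha
  have h0' : a ∉ x.R0 := h0
  have hcard := hub_card hM hC hZ hx ha' h0'
  have hL := Lge hx
  have hL0 : (0 : ℝ) < x.L := by linarith
  have hm := hx.m0
  have ht := hx.t0
  have heta := eta_le hx
  have hn1 := hx.n1
  have hh := hge hx
  have hh0 : (0 : ℝ) < x.h := by linarith
  have h1 : ∀ β ∈ x.Hb a, 1 / (200 * x.L) * ((3 / 5 - x.η) * x.θ * x.μ) ≤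
      (x.dat φ).lo x.D a β := by
    intro β hβ
    have hβ2 := hβ
    unfold Prm.Hb at hβ2
    rw [Finset.mem_filter] at hβ2
    obtain ⟨hcls, hmm, -, hmid⟩ := hβ2
    have hnadj : ¬ x.adj a β := ((((hM x hx).2 a ha').1 β).mp hmm).2.1
    exact lo_ge hV hx hφ ha' hcls (((hC x hx a ha').2.2.2.2.2.2 β hcls (hmid h0') hnadj).1)
  have h2 := Finset.sum_le_sum h1
  rw [Finset.sum_const, nsmul_eq_mul] at h2
  refine le_trans ?_ h2
  have h3 : ((x.Hb a).card : ℝ) * (1 / (200 * x.L) * ((3 / 5 - x.η) * x.θ * x.μ)) =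
      (((x.Hb a).card : ℝ) * x.μ) * (((3 / 5 - x.η) * x.θ / 200) / x.L) := by
    field_simp
  rw [h3]
  show 64 * ((2 * x.h : ℕ) : ℝ) * (x.e1 a + 40 * x.μ) ≤ _
  have hLm := Lmu_eta hx
  have hmL : x.μ ≤ x.L * x.μ := by nlinarith
  set n := ((x.Hb a).card : ℝ) * x.μ with hn
  have hV2 := hx.V2
  have hv0 := v0pos hx
  have hv1 := v0le hx
  have het : 0 < x.η * x.θ := mul_pos hn1 ht
  unfold Prm.e1
  split_ifs with hif
  · have hY : a ∈ x.YY true ∨ a ∈ x.YY false := hif.resolve_left h0'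
    have hfar := YY_far hx hY
    have hn9 : 9 / 100 ≤ n := by nlinarith
    apply hub_num hx
    · have e : x.θ / (10 ^ 7 * x.L * x.h) * (x.L * x.h) = x.θ / 10 ^ 7 := by
        field_simp
      rw [e]
      have h6 : 9 / 100 * ((3 / 5 - x.η) * x.θ / 200) ≤ n * ((3 / 5 - x.η) * x.θ / 200) := by
        apply mul_le_mul_of_nonneg_right hn9
        have : 0 ≤ 3 / 5 - x.η := by linarith
        positivity
      nlinarith
    · have e : x.θ / (10 ^ 7 * x.L * x.h) * (x.L * x.h) = x.θ / 10 ^ 7 := by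
        field_simp
      rw [e]
      nlinarith
  · have hfar := far_n0 hx ha' h0'
    have hn9 : 49 / 100 * (x.n0 * x.μ) ≤ n := by nlinarith
    have e : x.n0 * x.μ * x.θ / (10 ^ 6 * x.L * x.h) * (x.L * x.h) =
        x.n0 * x.μ * x.θ / 10 ^ 6 := by
      field_simp
    apply hub_num hx
    · rw [e]
      have h6 : 49 / 100 * (x.n0 * x.μ) * ((3 / 5 - x.η) * x.θ / 200) ≤
          n * ((3 / 5 - x.η) * x.θ / 200) := by
        apply mul_le_mul_of_nonneg_right hn9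
        have : 0 ≤ 3 / 5 - x.η := by linarith
        positivity
      have h7 : 0 < x.n0 * x.μ * x.θ := by positivity
      have h8 : x.η * (x.n0 * x.μ * x.θ) ≤ 1 / 10 ^ 18 * (x.n0 * x.μ * x.θ) :=
        mul_le_mul_of_nonneg_right heta h7.le
      nlinarith
    · rw [e]
      have := mul_le_mul_of_nonneg_right hV2 ht.le
      nlinarith

theorem t_VJ (hM : S_MMD) (hC : S_CLD) (hV : S_VF) : S_VJ := by
  intro x hx φ hφ s a ha τ
  have ha0 : a ∈ x.R0 := ha
  have ha2 := Finset.mem_filter.mp (show a ∈ x.R.filter fun a => x.B ≤ 2 * a + 2 * x.n0 ∧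
    2 * a ≤ x.B + 2 * x.n0 from ha0)
  have ha' : a ∈ x.R := ha2.1
  have hL := Lge hx
  have hL0 : (0 : ℝ) < x.L := by linarith
  have hm := hx.m0
  have ht := hx.t0
  have heta := eta_le hx
  have hn1 := hx.n1
  have hh := hge hx
  have hh0 : (0 : ℝ) < x.h := by linarith
  have hR := (mem_R hx).mp ha'
  have hb1 := b1_eq hx
  have hKJ := hx.KJ
  have e1 := halfL hx
  have e2 := Kmu hx
  have e3 := Bmu hx
  have hLm := Lmu_eta hx
  have hmL : x.μ ≤ x.L * x.μ := by nlinarith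
  have hv0 := v0pos hx
  have hv1 := v0le hx
  have r1 : (x.B : ℝ) ≤ 2 * a + 2 * x.n0 := by exact_mod_cast ha2.2.1
  have r2 : 2 * (a : ℝ) ≤ x.B + 2 * x.n0 := by exact_mod_cast ha2.2.2
  have r1' := mul_le_mul_of_nonneg_right r1 hm.le
  have r2' := mul_le_mul_of_nonneg_right r2 hm.le
  -- size
  have hn : 23 / 100 ≤ (((x.Hb a).filter fun β => decide (a < β) = τ).card : ℝ) * x.μ := by
    cases τ with
    | true =>
      have k := hub_key hM hC hx ha' (a + x.K + 1) x.B le_rfl (by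
        intro β h1 h2 h3
        unfold Prm.adj at h3
        omega) (fun h => absurd ha0 h) (fun β => decide (a < β) = true) (by
        intro β h1 h2
        simp only [decide_eq_true_eq]
        omega)
      have k' : (x.B : ℝ) ≤ a + x.K + 1 + ((4 * x.h ^ 2 + 2 * x.h : ℕ) : ℝ) +
          2 * ((((x.Hb a).filter fun β => decide (a < β) = true).card : ℝ) + 1) := by
        exact_mod_cast k
      rw [e1] at k'
      have k2 := mul_le_mul_of_nonneg_right k' hm.le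
      nlinarith [e2.1, e2.2, e3.1, e3.2]
    | false =>
      have k := hub_key hM hC hx ha' 0 (a - x.K) (by omega) (by
        intro β h1 h2 h3
        unfold Prm.adj at h3
        omega) (fun h => absurd ha0 h) (fun β => decide (a < β) = false) (by
        intro β h1 h2
        simp only [decide_eq_false_iff_not]
        omega)
      have k0 : a ≤ (4 * x.h ^ 2 + 2 * x.h) +
          2 * (((x.Hb a).filter fun β => decide (a < β) = false).card + 1) + x.K := by omega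
      have k' : (a : ℝ) ≤ ((4 * x.h ^ 2 + 2 * x.h : ℕ) : ℝ) +
          2 * ((((x.Hb a).filter fun β => decide (a < β) = false).card : ℝ) + 1) + x.K := by
        exact_mod_cast k0
      rw [e1] at k'
      have k2 := mul_le_mul_of_nonneg_right k' hm.le
      nlinarith [e2.1, e2.2, e3.1, e3.2]
  have h1 : ∀ β ∈ (x.Hb a).filter (fun β => decide (a < β) = τ),
      1 / (200 * x.L) * (7 / 50 * x.θ * x.μ) ≤ (x.dat φ).lo x.D a β := by
    intro β hβ
    have hβ2 := (Finset.mem_filter.mp hβ).1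
    unfold Prm.Hb at hβ2
    rw [Finset.mem_filter] at hβ2
    obtain ⟨hcls, -⟩ := hβ2
    exact lo_ge hV hx hφ ha' hcls (((hC x hx a ha').2.2.2.2.2.1 β hcls).1)
  have h2 := Finset.sum_le_sum h1
  rw [Finset.sum_const, nsmul_eq_mul] at h2
  refine le_trans ?_ h2
  set N := (((x.Hb a).filter fun β => decide (a < β) = τ).card : ℝ) with hN
  have h3 : N * (1 / (200 * x.L) * (7 / 50 * x.θ * x.μ)) =
      (N * x.μ) * ((7 / 50 * x.θ / 200) / x.L) := by
    field_simp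
  rw [h3]
  show 64 * ((2 * x.h : ℕ) : ℝ) * (x.e1 a + 40 * x.μ) ≤ _
  have he : x.e1 a = x.θ / (10 ^ 7 * x.L * x.h) := by
    unfold Prm.e1
    rw [if_pos (Or.inl ha0)]
  rw [he]
  have e : x.θ / (10 ^ 7 * x.L * x.h) * (x.L * x.h) = x.θ / 10 ^ 7 := by
    field_simp
  apply hub_num hx
  · rw [e]
    have h6 : 23 / 100 * (7 / 50 * x.θ / 200) ≤ N * x.μ * (7 / 50 * x.θ / 200) := by
      apply mul_le_mul_of_nonneg_right hn
      positivity
    nlinarith
  · rw [e]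
    nlinarith

end Pool.Agent.H25.HX
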