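import Pool.Agent.H25.HX.SV

/-!
# Project HX, scheme side (helper25): part VN
-/

set_option autoImplicit false
open Classical Finset

namespace Pool.Agent.H25.HX

open Pool.Agent.H39.HW (sm Av ln blk lab)
open Pool.Agent.H65.HX Pool.Agent.H65.HX.Sc

theorem YY_card {x : Prm} (hx : Par x) (τ : Bool) : 99 / 1000 ≤ ((x.YY τ).card : ℝ) * x.μ := by
  have h1 := Kmu hx
  have hm := hx.m0
  have heta := eta_le hx
  have hB := b1_eq hx
  have hKM : x.K ≤ x.b1 := by
    show x.K ≤ x.K + x.J + x.M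
    omega
  have h2 : x.K ≤ 5 * (x.YY τ).card := by
    cases τ with
    | true =>
      have : (x.YY true).card = x.B - 7 * x.K / 5 + 1 - (x.B - 8 * x.K / 5) := by
        unfold Prm.YY
        rw [if_pos rfl, Nat.card_Icc]
      rw [this]
      omega
    | false =>
      have : (x.YY false).card = 8 * x.K / 5 + 1 - 7 * x.K / 5 := by
        unfold Prm.YY
        rw [if_neg (by decide), Nat.card_Icc]
      rw [this]
      omega
  have h3 : (x.K : ℝ) ≤ 5 * ((x.YY τ).card : ℝ) := by exact_mod_cast h2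
  have h4 := mul_le_mul_of_nonneg_right h3 hm.le
  nlinarith [h1.1]

theorem ZZ_card {x : Prm} (hx : Par x) (τ : Bool) : 49 / 1000 ≤ ((x.ZZ τ).card : ℝ) * x.μ := by
  have h1 := Kmu hx
  have hm := hx.m0
  have heta := eta_le hx
  have hB := b1_eq hx
  have hL := Lge hx
  have hLm := Lmu_eta hx
  have hKM : x.K ≤ x.b1 := by
    show x.K ≤ x.K + x.J + x.M
    omega
  have h2 : x.K ≤ 10 * (x.ZZ τ).card + 10 := by
    cases τ with
    | true =>
      have : (x.ZZ true).card = x.B - x.K / 5 - (x.B - 3 * x.K / 10) := by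
        unfold Prm.ZZ
        rw [if_pos rfl, Nat.card_Ioc]
      rw [this]
      omega
    | false =>
      have : (x.ZZ false).card = 3 * x.K / 10 - x.K / 5 := by
        unfold Prm.ZZ
        rw [if_neg (by decide), Nat.card_Ico]
      rw [this]
      omega
  have h3 : (x.K : ℝ) ≤ 10 * ((x.ZZ τ).card : ℝ) + 10 := by exact_mod_cast h2
  have h4 := mul_le_mul_of_nonneg_right h3 hm.le
  nlinarith [h1.1]

theorem t_VN (hC : S_CLD) (hV : S_VF) : S_VN := by
  intro x hx φ hφ s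
  have hL := Lge hx
  have hL0 : (0 : ℝ) < x.L := by linarith
  have hm := hx.m0
  have ht := hx.t0
  have heta := eta_le hx
  have hn1 := hx.n1
  have hh := hge hx
  have hh0 : (0 : ℝ) < x.h := by linarith
  have htm := tm hx
  have hv0 := v0pos hx
  have hBm := Bmu hx
  have her : ∀ a, x.er a = 0 ∨ (x.er a = x.θ * x.μ / (3 * 10 ^ 7 * x.L * x.h) ∧
      (a ∈ x.R0 ∨ a ∈ x.YY true ∨ a ∈ x.YY false)) := by
    intro a
    unfold Prm.er
    split_ifs with h
    · exact Or.inr ⟨rfl, h⟩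
    · exact Or.inl rfl
  refine ⟨?_, ?_, ?_, ?_⟩
  · intro a _
    show 0 ≤ x.er a
    rcases her a with h | ⟨h, -⟩ <;> rw [h]
    positivity
  · intro a ha β hβ
    have ha' : a ∈ x.R := ha
    have hβ' : β ∈ x.cls a := hβ
    have h1 := lo_ge hV hx hφ ha' hβ' (((hC x hx a ha').2.2.2.2.2.1 β hβ').1)
    refine le_trans ?_ h1
    show 40 * x.er a ≤ _
    have h2 : 1 / (200 * x.L) * (7 / 50 * x.θ * x.μ) = 7 / 10000 * (x.θ * x.μ) / x.L := by
      field_simp
      ring
    rw [h2, le_div_iff₀ hL0]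
    rcases her a with h | ⟨h, -⟩ <;> rw [h]
    · have : 0 < x.θ * x.μ := htm
      linarith
    · have e : 40 * (x.θ * x.μ / (3 * 10 ^ 7 * x.L * x.h)) * x.L =
          40 / (3 * 10 ^ 7) * (x.θ * x.μ) / x.h := by
        field_simp
      rw [e, div_le_iff₀ hh0]
      nlinarith
  · intro a _
    show (x.B : ℝ) * x.er a ≤ x.e1 a
    rcases her a with h | ⟨h, h'⟩
    · rw [h, mul_zero]
      unfold Prm.e1
      split_ifs
      · positivity
      · positivity
    · rw [h]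
      unfold Prm.e1
      rw [if_pos h']
      have e : (x.B : ℝ) * (x.θ * x.μ / (3 * 10 ^ 7 * x.L * x.h)) =
          (x.B * x.μ / 3) * (x.θ / (10 ^ 7 * x.L * x.h)) := by
        field_simp
      rw [e]
      have h1 : (x.B : ℝ) * x.μ / 3 ≤ 1 := by linarith [hBm.2]
      have h2 : 0 ≤ x.θ / (10 ^ 7 * x.L * x.h) := by positivity
      nlinarith
  · intro τ a h
    have h' : a ∈ x.R0 ∨ a ∈ x.YY true ∨ a ∈ x.YY false := h
    show 20 * ((x.B : ℝ) + 1) * (x.n0 * x.μ * x.θ + 20 * x.μ) ≤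
      x.er a * ((x.YY τ).card : ℝ) * ((x.ZZ τ).card : ℝ)
    have h1 := YY_card hx τ
    have h2 := ZZ_card hx τ
    have he : x.er a = x.θ * x.μ / (3 * 10 ^ 7 * x.L * x.h) := by
      unfold Prm.er
      rw [if_pos h']
    rw [he]
    set A := ((x.YY τ).card : ℝ) with hA
    set Z := ((x.ZZ τ).card : ℝ) with hZ
    have e : x.θ * x.μ / (3 * 10 ^ 7 * x.L * x.h) * A * Z =
        (x.θ * x.μ * A * Z) / (3 * 10 ^ 7 * x.L * x.h) := by ring
    rw [e, le_div_iff₀ (by positivity)]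
    apply le_of_mul_le_mul_right _ hm
    have e2 : x.θ * x.μ * A * Z * x.μ = x.θ * ((A * x.μ) * (Z * x.μ)) := by ring
    rw [e2]
    have h3 : (99 / 1000 : ℝ) * (49 / 1000) ≤ (A * x.μ) * (Z * x.μ) :=
      mul_le_mul h1 h2 (by norm_num) (by linarith)
    have h4 := mul_le_mul_of_nonneg_left h3 ht.le
    refine le_trans ?_ h4
    have e3 : 20 * ((x.B : ℝ) + 1) * (x.n0 * x.μ * x.θ + 20 * x.μ) * (3 * 10 ^ 7 * x.L * x.h) * x.μ
        = 20 * (x.B * x.μ + x.μ) * (3 * 10 ^ 7) *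
          ((x.L : ℝ) * x.h * (x.n0 * x.μ) * x.θ + 20 * (x.L * x.h * x.μ)) := by ring
    rw [e3]
    have hLm := Lmu_eta hx
    have h5 : x.B * x.μ + x.μ ≤ 21 / 10 := by nlinarith [hBm.2]
    have h6 : (x.L : ℝ) * x.h * (x.n0 * x.μ) * x.θ ≤ 1 / 10 ^ 12 * x.θ := by
      apply mul_le_mul_of_nonneg_right _ ht.le
      have := hx.V1
      rw [le_div_iff₀ (by positivity)]
      nlinarith
    have h7 : (x.L : ℝ) * x.h * x.μ ≤ 1 / 10 ^ 15 * x.θ := by
      have h8 := Lmu hx
      have hhL : (x.h : ℝ) ≤ x.L := by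
        have : x.h ≤ x.L := by
          have := L_eq hx
          have := hx.h1
          nlinarith
        exact_mod_cast this
      have h9 : (x.h : ℝ) * (x.L * x.μ) ≤ (x.L : ℝ) ^ 3 * (x.L * x.μ) := by
        apply mul_le_mul_of_nonneg_right _ (by positivity)
        calc (x.h : ℝ) ≤ x.L := hhL
          _ = (x.L : ℝ) ^ 1 := (pow_one _).symm
          _ ≤ (x.L : ℝ) ^ 3 := pow_le_pow_right₀ (by linarith) (by norm_num)
      have h10 : x.η * x.θ ≤ 1 * x.θ := mul_le_mul_of_nonneg_right (by linarith) ht.le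
      nlinarith
    have h8 : 0 ≤ (x.L : ℝ) * x.h * (x.n0 * x.μ) * x.θ + 20 * (x.L * x.h * x.μ) := by positivity
    calc 20 * (x.B * x.μ + x.μ) * (3 * 10 ^ 7) *
          ((x.L : ℝ) * x.h * (x.n0 * x.μ) * x.θ + 20 * (x.L * x.h * x.μ))
        ≤ 20 * (21 / 10) * (3 * 10 ^ 7) *
          ((x.L : ℝ) * x.h * (x.n0 * x.μ) * x.θ + 20 * (x.L * x.h * x.μ)) := by
          apply mul_le_mul_of_nonneg_right _ h8
          nlinarith
      _ ≤ 20 * (21 / 10) * (3 * 10 ^ 7) * (1 / 10 ^ 12 * x.θ + 20 * (1 / 10 ^ 15 * x.θ)) := by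
          apply mul_le_mul_of_nonneg_left _ (by norm_num)
          linarith
      _ ≤ x.θ * (99 / 1000 * (49 / 1000)) := by nlinarith

end Pool.Agent.H25.HX
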